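import Pool.Agent.N922.PQ.Stm

/-!
# Properties of the condition `C2` (part `S_C2P` of project PQ; helper42)
-/

set_option autoImplicit false
set_option linter.all false

open Polynomial IsDedekindDomain NumberField
open scoped Classical IntermediateField

namespace Pool.Agent.N42.PQ

open Pool.Agent.N922.PQ

/-- the condition depends only on the class modulo the cubic polynomial -/
theorem pl2_congr {a b : ℤ} {h h' : ℚ_[2][X]}
    (hd : X ^ 3 + C (a : ℚ_[2]) * X + C (b : ℚ_[2]) ∣ h - h') (hp : PL2 a b h) : PL2 a b h' := by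
  rcases hp with ⟨g, hg⟩ | ⟨x, y, hy, hxy, g, hg⟩
  · left
    refine ⟨g, ?_⟩
    have e : h' - g ^ 2 = (h - g ^ 2) - (h - h') := by ring
    rw [e]
    exact dvd_sub hg hd
  · right
    refine ⟨x, y, hy, hxy, g, ?_⟩
    have e : (C x - X) * h' - g ^ 2 = ((C x - X) * h - g ^ 2) - (C x - X) * (h - h') := by ring
    rw [e]
    exact dvd_sub hg (hd.mul_left _)

section gen

variable {M Ω : Type} [Field M] [Field Ω] [Algebra M Ω]

theorem cub_monic {R : Type} [CommRing R] [Nontrivial R] (A B : R) :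
    (X ^ 3 + C A * X + C B : R[X]).Monic := by
  have : X ^ 3 + C A * X + C B = X ^ 3 + (C A * X + C B) := by ring
  rw [this]
  refine monic_X_pow_add ?_
  refine lt_of_le_of_lt (degree_linear_le) ?_
  norm_num

theorem cub_natDegree {R : Type} [CommRing R] [Nontrivial R] (A B : R) :
    (X ^ 3 + C A * X + C B : R[X]).natDegree = 3 := by
  compute_degree!

variable {a b : ℤ} {θ : Ω}

theorem minpoly_eq (hr : θ ^ 3 + (a : Ω) * θ + (b : Ω) = 0) (h3 : Module.finrank M Ω = 3)
    (ht : M⟮θ⟯ = ⊤) : minpoly M θ = X ^ 3 + C (a : M) * X + C (b : M) := by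
  have hfin : FiniteDimensional M Ω := Module.finite_of_finrank_pos (by rw [h3]; norm_num)
  have hint : IsIntegral M θ := Algebra.IsIntegral.isIntegral θ
  have hdeg : (minpoly M θ).natDegree = 3 := by
    rw [← IntermediateField.adjoin.finrank hint, ht, IntermediateField.finrank_top', h3]
  have hroot : aeval θ (X ^ 3 + C (a : M) * X + C (b : M)) = 0 := by
    simp only [map_add, map_mul, map_pow, aeval_X, aeval_C, map_intCast]
    exact hr
  have hdvd : minpoly M θ ∣ X ^ 3 + C (a : M) * X + C (b : M) := minpoly.dvd M θ hroot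
  refine (Polynomial.eq_of_monic_of_dvd_of_natDegree_le (minpoly.monic hint)
    (cub_monic (a : M) (b : M)) hdvd ?_).symm
  rw [hdeg, cub_natDegree]

theorem exists_rep (h3 : Module.finrank M Ω = 3) (ht : M⟮θ⟯ = ⊤) (x : Ω) :
    ∃ h : M[X], aeval θ h = x := by
  have hfin : FiniteDimensional M Ω := Module.finite_of_finrank_pos (by rw [h3]; norm_num)
  have hint : IsIntegral M θ := Algebra.IsIntegral.isIntegral θ
  have h1 : x ∈ (M⟮θ⟯).toSubalgebra := by
    rw [ht]
    exact IntermediateField.mem_top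
  rw [IntermediateField.adjoin_simple_toSubalgebra_of_isAlgebraic hint.isAlgebraic,
    Algebra.adjoin_singleton_eq_range_aeval] at h1
  obtain ⟨h, hh⟩ := h1
  exact ⟨h, hh⟩

theorem dvd_map (hr : θ ^ 3 + (a : Ω) * θ + (b : Ω) = 0) (h3 : Module.finrank M Ω = 3)
    (ht : M⟮θ⟯ = ⊤) (φ : M →+* ℚ_[2]) {h h' : M[X]} (he : aeval θ h = aeval θ h') :
    X ^ 3 + C (a : ℚ_[2]) * X + C (b : ℚ_[2]) ∣ h.map φ - h'.map φ := by
  have h1 : minpoly M θ ∣ h - h' := minpoly.dvd M θ (by rw [map_sub, he, sub_self])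
  rw [minpoly_eq hr h3 ht] at h1
  have h2 := Polynomial.map_dvd φ h1
  rw [Polynomial.map_sub] at h2
  simpa using h2

end gen

theorem c2p (hPLM : S_PLM) : S_C2P := by
  intro L M Ω _ _ _ _ _ _ _ _ _ a b θ hz hcub h3 ht
  have hr : (algebraMap L Ω θ) ^ 3 + (a : Ω) * (algebraMap L Ω θ) + (b : Ω) = 0 := by
    have h := congrArg (algebraMap L Ω) hcub.root
    simpa only [map_add, map_mul, map_pow, map_intCast, map_zero] using h
  refine ⟨?_, ?_, ?_, ?_⟩
  · intro x φ h hh
    obtain ⟨k, hk⟩ := exists_rep h3 ht x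
    left
    refine ⟨k.map φ, ?_⟩
    have h1 := dvd_map hr h3 ht φ (h := h) (h' := k ^ 2) (by rw [hh, map_pow, hk])
    rwa [Polynomial.map_pow] at h1
  · intro x y hx hy φ h hh
    obtain ⟨k, hk⟩ := exists_rep h3 ht x
    obtain ⟨l, hl⟩ := exists_rep h3 ht y
    have h1 := hPLM a b (k.map φ) (l.map φ) hz (hx φ k hk) (hy φ l hl)
    rw [← Polynomial.map_mul] at h1
    exact pl2_congr (dvd_map hr h3 ht φ (by rw [hh, map_mul, hk, hl])) h1
  · intro σ x hx φ h hh
    obtain ⟨σ', hσ'⟩ : ∃ σ' : Ω ≃ₐ[ℚ] Ω, ∀ z, σ' z = σ z :=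
      ⟨AlgEquiv.ofRingEquiv (f := σ.toRingEquiv) (fun q => by simp), fun z => rfl⟩
    obtain ⟨τ, hτ⟩ : ∃ τ : M ≃ₐ[ℚ] M, ∀ m, algebraMap M Ω (τ m) = σ (algebraMap M Ω m) := by
      refine ⟨σ'.restrictNormal M, fun m => ?_⟩
      rw [AlgEquiv.restrictNormal_commutes, hσ']
    obtain ⟨h0, hh0⟩ : ∃ h0 : M[X], h0 = h.map (τ.symm : M →+* M) := ⟨_, rfl⟩
    have e1 : h0.map (τ : M →+* M) = h := by
      rw [hh0, Polynomial.map_map]
      have e : (τ : M →+* M).comp (τ.symm : M →+* M) = RingHom.id M :=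
        RingHom.ext fun m => τ.apply_symm_apply m
      rw [e, Polynomial.map_id]
    have e2 : aeval (algebraMap L Ω θ) h0 = x := by
      apply σ.injective
      rw [← hh, ← e1]
      rw [aeval_def, aeval_def, eval₂_map]
      have e3 : σ (eval₂ (algebraMap M Ω) (algebraMap L Ω θ) h0) =
          eval₂ ((σ : Ω →+* Ω).comp (algebraMap M Ω)) (σ (algebraMap L Ω θ)) h0 :=
        Polynomial.hom_eval₂ h0 (algebraMap M Ω) (σ : Ω →+* Ω) (algebraMap L Ω θ)
      rw [e3, σ.commutes]
      congr 1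
      exact RingHom.ext fun m => (hτ m).symm
    have h1 := hx (φ.comp (τ : M →+* M)) h0 e2
    rw [← Polynomial.map_map, e1] at h1
    exact h1
  · rintro ⟨φ⟩ x hx h hh
    have e1 : aeval (algebraMap L Ω θ) (h.map (algebraMap ℚ M)) = algebraMap L Ω x := by
      rw [← hh, aeval_def, eval₂_map, aeval_def, Polynomial.hom_eval₂]
      congr 1
      exact Subsingleton.elim _ _
    have h1 := hx φ _ e1
    rw [Polynomial.map_map] at h1
    have e2 : φ.comp (algebraMap ℚ M) = algebraMap ℚ ℚ_[2] := Subsingleton.elim _ _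
    rwa [e2] at h1

end Pool.Agent.N42.PQ
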