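import Pool.Agent.N922.PQ.Lat
import Pool.Agent.N539.PP.Cls

/-!
# Local square classes in number fields (part `S_CLS` of project PQ; helper42)

Adapted from `Pool.Agent.N539.PP.Cls` (helper539).
-/

set_option autoImplicit false
set_option linter.all false

open Polynomial IsDedekindDomain NumberField
open scoped Classical

namespace Pool.Agent.N42.PQ

open Pool.Agent.N922.PQ
open Pool.Agent.N874.PP (Ev Sq1 U0)

/-- The residue fields are finite. -/
theorem finite_res {L O : Type} [Field L] [NumberField L] [CommRing O] [IsDedekindDomain O]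
    [Algebra O L] [IsFractionRing O L] [IsIntegralClosure O ℤ L] (𝔓 : HeightOneSpectrum O) :
    Finite (O ⧸ 𝔓.asIdeal) := by
  haveI : Module.Finite ℤ O := IsIntegralClosure.finite ℤ ℚ L O
  haveI : Module.Free ℤ O := IsIntegralClosure.module_free ℤ ℚ L O
  exact Ideal.finiteQuotientOfFreeOfNeBot 𝔓.asIdeal 𝔓.ne_bot

/-- The residue field at a prime over `Q` is finite. -/
theorem finite_residue {L O : Type} [Field L] [NumberField L] [CommRing O] [IsDedekindDomain O]
    [Algebra O L] [IsFractionRing O L] [IsIntegralClosure O ℤ L] {Q : ℤ} {𝔓 : HeightOneSpectrum O}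
    (hQ : Q ≠ 0) (hO : Ov Q 𝔓) : Finite (O ⧸ 𝔓.asIdeal) := finite_res (L := L) 𝔓

theorem cls : S_CLS := by
  intro L O _ _ _ _ _ _ _ Q 𝔓 ϖ hQ h2 hO hϖ eϖ x y hx hy
  haveI := finite_res (L := L) 𝔓
  exact ⟨Pool.Agent.N539.PP.ev_mul 𝔓 hx hy, Pool.Agent.N539.PP.u0_mul_iff 𝔓 hx hy hϖ eϖ⟩

end Pool.Agent.N42.PQ
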