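import Pool.Agent.N783.PQ.Sha

/-!
# PQ/SH8 (project PQ, subtask 5640, helper42): the final statement in terms of the coefficients

The lemmas on `pol` are adapted from helper316's file `Pool/Agent/N316/PQ/Fam.lean`.
-/

set_option autoImplicit false
set_option linter.all false

open Polynomial
open scoped Classical

namespace Pool.Agent.N42.PQ

open Pool.Agent.N783.PQ

variable {g : ℕ}

theorem pol_coeff (a : Fin (2 * g) → ℤ) (n : ℕ) :
    (pol a).coeff n = if n = 2 * g + 1 then 1 else if h : n < 2 * g then a ⟨n, h⟩ else 0 := by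
  have h1 : (∑ j : Fin (2 * g), C (a j) * X ^ (j : ℕ) : ℤ[X]).coeff n =
      if h : n < 2 * g then a ⟨n, h⟩ else 0 := by
    rw [Polynomial.finset_sum_coeff]
    simp only [coeff_C_mul, coeff_X_pow, mul_ite, mul_one, mul_zero]
    split_ifs with h
    · rw [Finset.sum_eq_single (⟨n, h⟩ : Fin (2 * g))]
      · simp
      · intro b _ hb
        rw [if_neg]
        intro hn
        exact hb (Fin.ext hn.symm)
      · intro h'
        exact absurd (Finset.mem_univ _) h'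
    · apply Finset.sum_eq_zero
      intro b _
      rw [if_neg]
      intro hn
      exact h (hn ▸ b.2)
  unfold pol
  rw [coeff_add, h1, coeff_X_pow]
  split_ifs with h2 h3
  · omega
  · simp
  · simp
  · simp

theorem pol_coeff_lt (a : Fin (2 * g) → ℤ) (j : Fin (2 * g)) : (pol a).coeff j = a j := by
  rw [pol_coeff, if_neg (by have := j.2; omega), dif_pos j.2]

theorem pol_coeff_tr (a : Fin (2 * g) → ℤ) : (pol a).coeff (2 * g) = 0 := by
  rw [pol_coeff, if_neg (by omega), dif_neg (by omega)]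

theorem pol_inj : Function.Injective (pol : (Fin (2 * g) → ℤ) → ℤ[X]) := by
  intro a b h
  funext j
  rw [← pol_coeff_lt a j, ← pol_coeff_lt b j, h]

theorem ht_pol {B : ℕ} {a : Fin (2 * g) → ℤ}
    (ha : ∀ j, |a j| ≤ (B : ℤ) ^ (2 * g + 1 - (j : ℕ))) : Ht g B (pol a) := by
  refine ⟨pol_monic a, pol_natDegree a, pol_coeff_tr a, fun j hj => ?_⟩
  rcases Nat.lt_or_ge j (2 * g) with h | h
  · have h1 := ha ⟨j, h⟩
    rw [← pol_coeff_lt a] at h1
    exact h1
  · have h1 : j = 2 * g := by omega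
    rw [h1, pol_coeff_tr, abs_zero]
    positivity

theorem eq_pol {B : ℕ} {f : ℤ[X]} (hf : Ht g B f) : f = pol fun j : Fin (2 * g) => f.coeff j := by
  ext n
  rw [pol_coeff]
  split_ifs with h1 h2
  · rw [h1, ← hf.deg]
    exact hf.mon
  · rfl
  · rcases Nat.lt_or_ge (2 * g) n with h3 | h3
    · apply Polynomial.coeff_eq_zero_of_natDegree_lt
      rw [hf.deg]
      omega
    · have h4 : n = 2 * g := by omega
      rw [h4, hf.tr]

theorem image_eq (B : ℕ) (P : ℤ[X] → Prop) :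
    pol '' {a : Fin (2 * g) → ℤ | (∀ i, |a i| ≤ (B : ℤ) ^ (2 * g + 1 - (i : ℕ))) ∧ P (pol a)} =
      {f : ℤ[X] | Ht g B f ∧ P f} := by
  ext f
  constructor
  · rintro ⟨a, ⟨h1, h2⟩, rfl⟩
    exact ⟨ht_pol h1, h2⟩
  · rintro ⟨h1, h2⟩
    refine ⟨fun j => f.coeff j, ⟨fun i => h1.ht i (by have := i.2; omega), ?_⟩, (eq_pol h1).symm⟩
    rw [← eq_pol h1]
    exact h2

theorem fin (h1 : S_MAIN) (h2 : S_SHA) : S_FIN := by
  intro g hg
  obtain ⟨c, hc, B₀, hB⟩ := h1 g hg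
  refine ⟨c, hc, B₀, fun B hBB => ?_⟩
  obtain ⟨hf, hle⟩ := hB B hBB
  have e1 : pol '' {a : Fin (2 * g) → ℤ | ∀ i, |a i| ≤ (B : ℤ) ^ (2 * g + 1 - (i : ℕ))} =
      {f : ℤ[X] | Ht g B f} := by
    have := image_eq (g := g) B (fun _ => True)
    simpa using this
  have hfin : {a : Fin (2 * g) → ℤ | ∀ i, |a i| ≤ (B : ℤ) ^ (2 * g + 1 - (i : ℕ))}.Finite := by
    refine Set.Finite.of_finite_image ?_ (pol_inj.injOn)
    rw [e1]
    exact hf
  refine ⟨hfin, ?_⟩
  rw [← e1, Set.ncard_image_of_injective _ pol_inj] at hle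
  refine hle.trans ?_
  have e2 := image_eq (g := g) B (fun f => Irreducible (ov ℚ f) ∧ SelZero f)
  rw [← e2, Set.ncard_image_of_injective _ pol_inj]
  have h3 : {a : Fin (2 * g) → ℤ | (∀ i, |a i| ≤ (B : ℤ) ^ (2 * g + 1 - (i : ℕ))) ∧
      Irreducible (ov ℚ (pol a)) ∧ SelZero (pol a)} ⊆
      {a : Fin (2 * g) → ℤ | (∀ i, |a i| ≤ (B : ℤ) ^ (2 * g + 1 - (i : ℕ))) ∧
      Irreducible (fol a ℚ) ∧ SelZero (pol a) ∧ (∀ c : Sha a, 2 • c = 0 → c = 0) ∧
      (∀ P : JacQ a, 2 • P = 0 → P = 0) ∧ (∀ P : JacQ a, ∃ Q : JacQ a, 2 • Q = P)} := by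
    rintro a ⟨h4, h5, h6⟩
    exact ⟨h4, h5, h6, h2 g a h5 h6⟩
  have h4 := Set.ncard_le_ncard h3 (hfin.subset fun a ha => ha.1)
  exact_mod_cast h4

end Pool.Agent.N42.PQ
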